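import Pool.Agent.W851.FC.Ent

set_option autoImplicit false

open MeasureTheory Filter Topology ProbabilityTheory
open scoped ENNReal
open Pool.Agent.Helper179.KS

namespace Pool.Agent.W851.FC

lemma lint_part {A : Type} [MeasurableSpace A] (ν : Measure A) [IsProbabilityMeasure ν] {k : ℕ}
    {g : A → Fin k} (hg : Measurable g) :
    ∫⁻ a, ENNReal.ofReal (-Real.log (ν.real (g ⁻¹' {g a}))) ∂ν =
      ENNReal.ofReal (shannonEntropy ν g) := by
  have h1 : ∫⁻ a, ENNReal.ofReal (-Real.log (ν.real (g ⁻¹' {g a}))) ∂ν =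
      ∫⁻ w, ENNReal.ofReal (-Real.log (ν.real (g ⁻¹' {w}))) ∂(ν.map g) := by
    rw [lintegral_map (measurable_of_finite _) hg]
  rw [h1, lintegral_fintype]
  unfold shannonEntropy
  rw [ENNReal.ofReal_sum_of_nonneg
    (fun _ _ => Real.negMulLog_nonneg measureReal_nonneg measureReal_le_one)]
  refine Finset.sum_congr rfl fun w _ => ?_
  rw [Measure.map_apply hg (measurableSet_singleton w)]
  rw [Real.negMulLog, neg_mul, mul_comm, ← mul_neg, mul_comm,
    ENNReal.ofReal_mul' (neg_nonneg.2 (Real.log_nonpos measureReal_nonneg measureReal_le_one)),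
    mul_comm]
  congr 1
  rw [Measure.real, ENNReal.ofReal_toReal (measure_ne_top _ _)]

/-- A law all of whose finite partitions have entropy at most `H` is purely atomic with
`E (- log p) ≤ H`. -/
theorem atomic {A : Type} [MeasurableSpace A] [MeasurableSpace.CountablySeparated A]
    [MeasurableSingletonClass A] (ν : Measure A)
    [IsProbabilityMeasure ν] (H : ℝ)
    (h : ∀ (k : ℕ) (g : A → Fin k), Measurable g → shannonEntropy ν g ≤ H) :
    Measurable (fun a => ν.real {a}) ∧ (∀ᵐ a ∂ν, 0 < ν.real {a}) ∧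
      ∫⁻ a, ENNReal.ofReal (-Real.log (ν.real {a})) ∂ν ≤ ENNReal.ofReal H := by
  obtain ⟨f, hf, hinj⟩ := MeasurableSpace.measurable_injection_nat_bool_of_countablySeparated A
  let e : ∀ n : ℕ, (Fin n → Bool) ≃ Fin (Fintype.card (Fin n → Bool)) :=
    fun n => Fintype.equivFin _
  let g : ∀ n : ℕ, A → Fin (Fintype.card (Fin n → Bool)) := fun n a => e n (fun j => f a j)
  have hg : ∀ n, Measurable (g n) := fun n =>
    (measurable_of_finite (e n)).comp
      (measurable_pi_lambda _ fun j => (measurable_pi_apply _).comp hf)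
  have hcell : ∀ n a, g n ⁻¹' {g n a} = {a' | ∀ j : ℕ, j < n → f a' j = f a j} := by
    intro n a
    ext a'
    simp only [Set.mem_preimage, Set.mem_singleton_iff, Set.mem_ofPred_eq, g,
      EmbeddingLike.apply_eq_iff_eq]
    constructor
    · intro h1 j hj
      exact congrFun h1 ⟨j, hj⟩
    · intro h1
      funext j
      exact h1 j j.2
  have hlim : ∀ a, Tendsto (fun n => ν.real (g n ⁻¹' {g n a})) atTop (𝓝 (ν.real {a})) := by
    intro a
    have hinter : ⋂ n, g n ⁻¹' {g n a} = {a} := by
      ext a'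
      simp only [hcell, Set.mem_iInter, Set.mem_ofPred_eq, Set.mem_singleton_iff]
      constructor
      · intro h1
        apply hinj
        funext j
        exact h1 (j + 1) j (by omega)
      · rintro rfl _ _ _
        rfl
    have hanti : Antitone (fun n => g n ⁻¹' {g n a}) := by
      intro n m hnm
      simp only [hcell]
      intro a' ha' j hj
      exact ha' j (by omega)
    have h1 := tendsto_measure_iInter_atTop (μ := ν)
      (fun n => (hg n (measurableSet_singleton (g n a))).nullMeasurableSet) hanti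
      ⟨0, measure_ne_top _ _⟩
    rw [hinter] at h1
    exact (ENNReal.tendsto_toReal (measure_ne_top _ _)).comp h1
  have hmeasn : ∀ n, Measurable (fun a => ν.real (g n ⁻¹' {g n a})) := fun n =>
    (measurable_of_finite (fun w => ν.real (g n ⁻¹' {w}))).comp (hg n)
  have hmeas : Measurable (fun a => ν.real {a}) :=
    measurable_of_tendsto_metrizable hmeasn (tendsto_pi_nhds.2 hlim)
  have hpos : ∀ᵐ a ∂ν, ∀ n, 0 < ν.real (g n ⁻¹' {g n a}) := by
    rw [ae_all_iff]
    intro n
    rw [ae_iff]
    have e1 : {a | ¬ 0 < ν.real (g n ⁻¹' {g n a})} ⊆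
        ⋃ w : {w // ν.real (g n ⁻¹' {w}) = 0}, g n ⁻¹' {w.1} := by
      intro a ha
      have : ν.real (g n ⁻¹' {g n a}) = 0 := le_antisymm (not_lt.1 ha) measureReal_nonneg
      exact Set.mem_iUnion.2 ⟨⟨g n a, this⟩, rfl⟩
    refine measure_mono_null e1 ?_
    rw [measure_iUnion_null_iff]
    rintro ⟨w, hw⟩
    rwa [measureReal_eq_zero_iff] at hw
  have hfatou : ∫⁻ a, liminf (fun n => ENNReal.ofReal (-Real.log (ν.real (g n ⁻¹' {g n a})))) atTop ∂ν
      ≤ ENNReal.ofReal H := by
    refine (lintegral_liminf_le fun n =>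
      ((Real.measurable_log.comp (hmeasn n)).neg).ennreal_ofReal).trans ?_
    refine (liminf_le_liminf (v := fun _ => ENNReal.ofReal H)
      (Eventually.of_forall fun n => ?_)).trans (by simp)
    have h7 := lint_part ν (hg n)
    change ∫⁻ a, ENNReal.ofReal (-Real.log (ν.real (g n ⁻¹' {g n a}))) ∂ν ≤ _
    rw [h7]
    exact ENNReal.ofReal_le_ofReal (h _ _ (hg n))
  have hpos2 : ∀ᵐ a ∂ν, 0 < ν.real {a} := by
    have hfin : ∀ᵐ a ∂ν, liminf (fun n => ENNReal.ofReal (-Real.log (ν.real (g n ⁻¹' {g n a}))))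
        atTop < ∞ := by
      apply ae_lt_top
      · exact Measurable.liminf fun n =>
          ((Real.measurable_log.comp (hmeasn n)).neg).ennreal_ofReal
      · exact (hfatou.trans_lt ENNReal.ofReal_lt_top).ne
    filter_upwards [hfin, hpos] with a ha1 ha2
    by_contra hcon
    have h0 : ν.real {a} = 0 := le_antisymm (not_lt.1 hcon) measureReal_nonneg
    have h1 := hlim a
    rw [h0] at h1
    have h2 : Tendsto (fun n => ν.real (g n ⁻¹' {g n a})) atTop (𝓝[>] 0) :=
      tendsto_nhdsWithin_iff.2 ⟨h1, Eventually.of_forall fun n => ha2 n⟩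
    have h3 : Tendsto (fun n => -Real.log (ν.real (g n ⁻¹' {g n a}))) atTop atTop :=
      tendsto_neg_atBot_atTop.comp (Real.tendsto_log_nhdsGT_zero.comp h2)
    have h4 := ENNReal.tendsto_ofReal_atTop.comp h3
    have h5 := h4.liminf_eq
    change liminf (fun n => ENNReal.ofReal (-Real.log (ν.real (g n ⁻¹' {g n a})))) atTop = ∞ at h5
    rw [h5] at ha1
    exact lt_irrefl _ ha1
  refine ⟨hmeas, hpos2, ?_⟩
  refine le_trans (le_of_eq (lintegral_congr_ae ?_)) hfatou
  filter_upwards [hpos2] with a ha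
  have h1 : Tendsto (fun n => -Real.log (ν.real (g n ⁻¹' {g n a}))) atTop
      (𝓝 (-Real.log (ν.real {a}))) := ((Real.continuousAt_log ha.ne').tendsto.comp (hlim a)).neg
  exact ((ENNReal.continuous_ofReal.tendsto _).comp h1).liminf_eq.symm

end Pool.Agent.W851.FC
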