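import Pool.Agent.W851.FC.Defs

set_option autoImplicit false

open MeasureTheory Filter Topology ProbabilityTheory
open scoped ENNReal

namespace Pool.Agent.W851.FC

/-- golden ratio -/
noncomputable abbrev gm : ℝ := Real.goldenRatio

lemma gm_sq : gm ^ 2 = gm + 1 := Real.goldenRatio_sq
lemma gm_gt : 1 < gm := Real.one_lt_goldenRatio
lemma gm_lt : gm < 2 := Real.goldenRatio_lt_two

/-- the coin: `true` with probability `2 - gm = 1 / gm ^ 2` -/
noncomputable def coin : Measure Bool :=
  ENNReal.ofReal (2 - gm) • Measure.dirac true + ENNReal.ofReal (gm - 1) • Measure.dirac false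

instance : IsProbabilityMeasure coin := ⟨by
  have h1 := gm_gt
  have h2 := gm_lt
  simp only [coin, Measure.coe_add, Measure.coe_smul, Pi.add_apply, Pi.smul_apply, measure_univ,
    smul_eq_mul, mul_one]
  rw [← ENNReal.ofReal_add (by linarith) (by linarith)]
  norm_num⟩

lemma coin_true : coin.real {true} = 2 - gm := by
  have h2 := gm_lt
  rw [Measure.real, coin]
  simp only [Measure.coe_add, Measure.coe_smul, Pi.add_apply, Pi.smul_apply, smul_eq_mul]
  rw [Measure.dirac_apply' _ (measurableSet_singleton _),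
    Measure.dirac_apply' _ (measurableSet_singleton _)]
  simp [h2.le]

lemma coin_false : coin.real {false} = gm - 1 := by
  have h2 := gm_gt
  rw [Measure.real, coin]
  simp only [Measure.coe_add, Measure.coe_smul, Pi.add_apply, Pi.smul_apply, smul_eq_mul]
  rw [Measure.dirac_apply' _ (measurableSet_singleton _),
    Measure.dirac_apply' _ (measurableSet_singleton _)]
  simp [h2.le]

open Classical in
/-- the chain as a function of the coins: `1` iff the run of `true`s ending here is odd -/
noncomputable def gmap (ω : ℤ → Bool) : ℤ → Bool :=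
  fun i => decide (∃ k : ℕ, Odd k ∧ (∀ l : ℕ, l < k → ω (i - l) = true) ∧ ω (i - k) = false)

lemma gmap_shift (ω : ℤ → Bool) : gmap (shift ω) = shift (gmap ω) := by
  funext i
  unfold gmap shift
  have e : ∀ l : ℕ, i - (l : ℤ) + 1 = i + 1 - l := fun l => by ring
  rw [decide_eq_decide]
  simp only [e]

lemma gmap_eq {ω : ℤ → Bool} {i : ℤ} {m : ℕ} (h1 : ∀ l : ℕ, l < m → ω (i - l) = true)
    (h2 : ω (i - m) = false) : gmap ω i = decide (Odd m) := by
  unfold gmap
  rw [decide_eq_decide]
  constructor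
  · rintro ⟨k, hk, h3, h4⟩
    rcases lt_trichotomy k m with h | h | h
    · rw [h1 k h] at h4; exact absurd h4 (by simp)
    · rwa [← h]
    · rw [h3 m h] at h2; exact absurd h2 (by simp)
  · exact fun hm => ⟨m, hm, h1, h2⟩

lemma gmap_succ {ω : ℤ → Bool} {i : ℤ} (h : ∃ k : ℕ, ω (i - k) = false) :
    gmap ω (i + 1) = (ω (i + 1) && !gmap ω i) := by
  classical
  have h2 := Nat.find_spec h
  have h1 : ∀ l : ℕ, l < Nat.find h → ω (i - l) = true := fun l hl => by
    have := Nat.find_min h hl
    simpa using this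
  generalize Nat.find h = m at h1 h2
  rw [gmap_eq h1 h2]
  rcases hω : ω (i + 1) with _ | _
  · rw [gmap_eq (m := 0) (by simp) (by simpa using hω)]
    simp
  · rw [gmap_eq (m := m + 1) (i := i + 1) ?_ ?_]
    · rcases Nat.even_or_odd m with hm | hm
      · have := Nat.not_odd_iff_even.2 hm
        simp [Nat.odd_add_one, this]
      · simp [Nat.odd_add_one, hm]
    · intro l hl
      rcases l with _ | l
      · simpa using hω
      · have := h1 l (by omega)
        rw [← this]; congr 1; push_cast; ring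
    · rw [← h2]; congr 1; push_cast; ring

/-- the law of the coins -/
noncomputable abbrev PP : Measure (ℤ → Bool) := iid coin

lemma shift_meas {A : Type} [MeasurableSpace A] : Measurable (shift : (ℤ → A) → (ℤ → A)) :=
  measurable_pi_lambda _ fun _ => measurable_pi_apply _

instance {A : Type} [MeasurableSpace A] (ν : Measure A) [IsProbabilityMeasure ν] :
    IsProbabilityMeasure (iid ν) := by unfold iid; infer_instance

lemma iid_shift {A : Type} [MeasurableSpace A] (ν : Measure A) [IsProbabilityMeasure ν] :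
    MeasurePreserving shift (iid ν) (iid ν) := by
  refine ⟨shift_meas, ?_⟩
  unfold iid
  exact Measure.map_infinitePi_infinitePi_of_inj (P := fun _ : ℤ => ν) (f := fun i : ℤ => i + 1)
    (add_left_injective 1)

/-- the σ-algebra of the past -/
@[instance_reducible] def past (i : ℤ) : MeasurableSpace (ℤ → Bool) :=
  ⨆ j ∈ {j : ℤ | j ≤ i}, MeasurableSpace.comap (fun ω : ℤ → Bool => ω j) inferInstance

lemma past_le (i : ℤ) : past i ≤ MeasurableSpace.pi := by
  refine iSup₂_le fun j _ => ?_
  exact (measurable_pi_apply j).comap_le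

lemma past_mono {i j : ℤ} (h : i ≤ j) : past i ≤ past j := by
  refine iSup₂_le fun l hl => ?_
  exact le_iSup₂_of_le l (le_trans hl h) le_rfl

lemma meas_coord {i j : ℤ} (h : j ≤ i) (b : Bool) : MeasurableSet[past i] {ω | ω j = b} := by
  have h1 : MeasurableSpace.comap (fun ω : ℤ → Bool => ω j) inferInstance ≤ past i :=
    le_iSup₂_of_le (f := fun j (_ : j ∈ {j : ℤ | j ≤ i}) =>
      MeasurableSpace.comap (fun ω : ℤ → Bool => ω j) inferInstance) j h le_rfl
  exact h1 _ ⟨{b}, measurableSet_singleton b, rfl⟩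

lemma meas_gmap_true (i : ℤ) : MeasurableSet[past i] {ω | gmap ω i = true} := by
  have : {ω | gmap ω i = true} = ⋃ k : {k : ℕ // Odd k},
      ((⋂ l : Fin k.1, {ω : ℤ → Bool | ω (i - (l : ℕ)) = true}) ∩ {ω | ω (i - k.1) = false}) := by
    ext ω
    simp only [gmap, decide_eq_true_eq, Set.mem_ofPred_eq, Set.mem_iUnion, Set.mem_inter_iff,
      Set.mem_iInter]
    constructor
    · rintro ⟨k, hk, h1, h2⟩
      exact ⟨⟨k, hk⟩, fun l => h1 l l.2, h2⟩
    · rintro ⟨⟨k, hk⟩, h1, h2⟩
      exact ⟨k, hk, fun l hl => h1 ⟨l, hl⟩, h2⟩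
  rw [this]
  refine MeasurableSet.iUnion fun k => MeasurableSet.inter ?_ ?_
  · exact MeasurableSet.iInter fun l => meas_coord (by omega) _
  · exact meas_coord (by omega) _

lemma meas_gmap (i : ℤ) (b : Bool) : MeasurableSet[past i] {ω | gmap ω i = b} := by
  cases b with
  | true => exact meas_gmap_true i
  | false =>
    have : {ω | gmap ω i = false} = {ω | gmap ω i = true}ᶜ := by
      ext ω; simp
    rw [this]
    exact (meas_gmap_true i).compl

lemma gmap_meas : Measurable gmap := by
  refine measurable_pi_lambda _ fun i => measurable_to_bool ?_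
  exact past_le i _ (meas_gmap_true i)

lemma indep_next (i : ℤ) : Indep (past i)
    (MeasurableSpace.comap (fun ω : ℤ → Bool => ω (i + 1)) inferInstance) PP := by
  have h1 : iIndepFun (fun (j : ℤ) (ω : ℤ → Bool) => ω j) PP :=
    iIndepFun_infinitePi (P := fun _ : ℤ => coin) (X := fun _ ω => ω) (fun _ => measurable_id)
  have h2 := indep_iSup_of_disjoint (m := fun j : ℤ =>
    MeasurableSpace.comap (fun ω : ℤ → Bool => ω j) inferInstance)
    (fun j => (measurable_pi_apply j).comap_le) h1 (S := {j : ℤ | j ≤ i}) (T := {i + 1})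
    (by rw [Set.disjoint_singleton_right]; simp)
  have e : (⨆ j ∈ ({i + 1} : Set ℤ), MeasurableSpace.comap (fun ω : ℤ → Bool => ω j)
      (inferInstance : MeasurableSpace Bool)) =
      MeasurableSpace.comap (fun ω : ℤ → Bool => ω (i + 1)) inferInstance := by
    simp
  rw [e] at h2
  exact h2

lemma PP_coord (i : ℤ) (b : Bool) : PP.real {ω | ω i = b} = coin.real {b} := by
  have h := measurePreserving_eval_infinitePi (fun _ : ℤ => coin) i
  have := h.measureReal_preimage (measurableSet_singleton b).nullMeasurableSet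
  exact this

lemma PP_inter {i : ℤ} {E : Set (ℤ → Bool)} (hE : MeasurableSet[past i] E) (b : Bool) :
    PP.real (E ∩ {ω | ω (i + 1) = b}) = PP.real E * coin.real {b} := by
  have h := (Indep_iff _ _ _).1 (indep_next i) E {ω | ω (i + 1) = b} hE
    ⟨{b}, measurableSet_singleton b, rfl⟩
  rw [Measure.real, h, ENNReal.toReal_mul, ← PP_coord (i + 1) b]
  rfl

lemma ae_run (i : ℤ) : ∀ᵐ ω ∂PP, ∃ k : ℕ, ω (i - k) = false := by
  have hq0 : 0 ≤ 2 - gm := by linarith [gm_lt]
  have hq1 : 2 - gm < 1 := by linarith [gm_gt]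
  have key : ∀ n : ℕ, PP.real {ω : ℤ → Bool | ∀ k : ℕ, k < n → ω (i - k) = true} = (2 - gm) ^ n := by
    intro n
    have e : {ω : ℤ → Bool | ∀ k : ℕ, k < n → ω (i - k) = true} =
        Set.pi ((Finset.range n).image (fun k : ℕ => i - (k : ℤ))) (fun _ => {true}) := by
      ext ω
      simp [Set.mem_pi]
    rw [e, Measure.real]
    change ((Measure.infinitePi (fun _ : ℤ => coin)) _).toReal = _
    rw [Measure.infinitePi_pi _ (fun _ _ => measurableSet_singleton _), Finset.prod_const,
      Finset.card_image_of_injective _ (fun a b h => by simpa using h), Finset.card_range,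
      ENNReal.toReal_pow]
    congr 1
    exact coin_true
  rw [ae_iff]
  have hle : ∀ n : ℕ, PP.real {ω : ℤ → Bool | ¬ ∃ k : ℕ, ω (i - k) = false} ≤ (2 - gm) ^ n := by
    intro n
    rw [← key n]
    refine measureReal_mono ?_
    intro ω hω k _
    simp only [Set.mem_ofPred_eq, not_exists, Bool.not_eq_false] at hω
    exact hω k
  have hlim : Tendsto (fun n : ℕ => (2 - gm) ^ n) atTop (𝓝 0) :=
    tendsto_pow_atTop_nhds_zero_of_lt_one hq0 hq1
  have h0 : PP.real {ω : ℤ → Bool | ¬ ∃ k : ℕ, ω (i - k) = false} ≤ 0 :=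
    ge_of_tendsto' hlim hle
  have h00 := le_antisymm h0 measureReal_nonneg
  rwa [measureReal_eq_zero_iff] at h00

/-- the law of the golden mean chain -/
noncomputable def gmu : Measure (ℤ → Bool) := PP.map gmap

instance : IsProbabilityMeasure gmu :=
  Measure.isProbabilityMeasure_map gmap_meas.aemeasurable

lemma gmu_real {E : Set (ℤ → Bool)} (hE : MeasurableSet E) :
    gmu.real E = PP.real (gmap ⁻¹' E) := by
  rw [Measure.real, gmu, Measure.map_apply gmap_meas hE, Measure.real]

lemma gmu_shift : MeasurePreserving shift gmu gmu := by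
  refine ⟨shift_meas, ?_⟩
  rw [gmu, Measure.map_map shift_meas gmap_meas]
  have : shift ∘ gmap = gmap ∘ shift := by
    funext ω; exact (gmap_shift ω).symm
  rw [this, ← Measure.map_map gmap_meas shift_meas, (iid_shift coin).map_eq]

/-- transition probabilities of the golden mean chain: from `true` always to `false`, from `false`
to `true` with probability `2 - gm = gm ^ (-2)`, to `false` with probability `gm - 1 = gm ^ (-1)` -/
noncomputable def gp (s t : Bool) : ℝ :=
  if s = true then (if t = true then 0 else 1) else (if t = true then 2 - gm else gm - 1)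

lemma meas_cyl {S : Type} [Countable S] [MeasurableSpace S] [MeasurableSingletonClass S] (n : ℕ)
    (w : ℕ → S) : MeasurableSet {x : ℤ → S | ∀ j : ℕ, j ≤ n → x j = w j} := by
  have : {x : ℤ → S | ∀ j : ℕ, j ≤ n → x j = w j} =
      ⋂ j : ℕ, ⋂ _ : j ≤ n, (fun x : ℤ → S => x j) ⁻¹' {w j} := by
    ext x; simp
  rw [this]
  exact MeasurableSet.iInter fun j => MeasurableSet.iInter fun _ =>
    measurable_pi_apply _ (measurableSet_singleton _)

lemma gmu_markov (n : ℕ) (w : ℕ → Bool) :
    gmu.real {x | ∀ j : ℕ, j ≤ n + 1 → x j = w j} =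
      gmu.real {x | ∀ j : ℕ, j ≤ n → x j = w j} * gp (w n) (w (n + 1)) := by
  rw [gmu_real (meas_cyl _ _), gmu_real (meas_cyl _ _)]
  set E : Set (ℤ → Bool) := gmap ⁻¹' {x | ∀ j : ℕ, j ≤ n → x j = w j} with hE
  have hEm : MeasurableSet[past n] E := by
    have : E = ⋂ j : Fin (n + 1), {ω | gmap ω (j : ℕ) = w j} := by
      ext ω
      simp only [hE, Set.mem_preimage, Set.mem_ofPred_eq, Set.mem_iInter]
      constructor
      · exact fun h j => h j (by omega)
      · exact fun h j hj => h ⟨j, by omega⟩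
    rw [this]
    refine MeasurableSet.iInter fun j => ?_
    exact past_mono (by omega) _ (meas_gmap _ _)
  have hsplit : gmap ⁻¹' {x | ∀ j : ℕ, j ≤ n + 1 → x j = w j} =ᵐ[PP]
      (E ∩ {ω | (ω ((n : ℤ) + 1) && !w n) = w (n + 1)} : Set _) := by
    filter_upwards [ae_run n] with ω hω
    have h1 := gmap_succ hω
    apply propext
    change (∀ j : ℕ, j ≤ n + 1 → gmap ω j = w j) ↔
      (∀ j : ℕ, j ≤ n → gmap ω j = w j) ∧ (ω ((n : ℤ) + 1) && !w n) = w (n + 1)
    constructor
    · intro h
      refine ⟨fun j hj => h j (by omega), ?_⟩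
      rw [← h n (by omega), ← h1, ← h (n + 1) le_rfl]
      push_cast
      rfl
    · rintro ⟨h, h3⟩ j hj
      rcases Nat.lt_or_ge n j with h4 | h4
      · have : j = n + 1 := by omega
        subst this
        rw [← h3, ← h n le_rfl, ← h1]
        push_cast
        rfl
      · exact h j h4
  rw [measureReal_congr hsplit]
  rcases hw : w n with _ | _
  · -- from `false`
    have e : {ω : ℤ → Bool | (ω ((n : ℤ) + 1) && !false) = w (n + 1)} =
        {ω | ω ((n : ℤ) + 1) = w (n + 1)} := by
      ext ω; simp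
    rw [e, PP_inter hEm]
    congr 1
    rcases w (n + 1) with _ | _
    · simp [gp, coin_false]
    · simp [gp, coin_true]
  · rcases hw2 : w (n + 1) with _ | _
    · simp [gp]
    · simp [gp]

lemma gp_nonneg (s t : Bool) : 0 ≤ gp s t := by
  have h1 := gm_gt
  have h2 := gm_lt
  unfold gp
  split_ifs <;> linarith

lemma gmu_chain : IsStationaryChain gp gmu where
  prob := inferInstance
  stat := gmu_shift
  nonneg := gp_nonneg
  sum_one := fun s => by
    have h := hasSum_fintype (gp s)
    have e : ∑ b, gp s b = 1 := by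
      rw [Fintype.sum_bool]
      cases s
      · simp [gp]; norm_num
      · simp [gp]
    rwa [e] at h
  markov := gmu_markov

lemma gmu_pos (b : Bool) : 0 < gmu.real {x | x 0 = b} := by
  have h1 := gm_gt
  have h2 := gm_lt
  have hm : MeasurableSet {x : ℤ → Bool | x 0 = b} :=
    (show Measurable (fun x : ℤ → Bool => x 0) from measurable_pi_apply _)
      (measurableSet_singleton b)
  rw [gmu_real hm]
  cases b with
  | false =>
    refine lt_of_lt_of_le ?_ (measureReal_mono (s₁ := {ω : ℤ → Bool | ω 0 = false}) ?_)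
    · rw [PP_coord, coin_false]; linarith
    · intro ω hω
      change gmap ω 0 = false
      rw [gmap_eq (m := 0) (by simp) (by simpa using hω)]
      simp
  | true =>
    refine lt_of_lt_of_le ?_ (measureReal_mono
      (s₁ := {ω : ℤ → Bool | ω (-1) = false} ∩ {ω | ω (-1 + 1) = true}) ?_)
    · rw [PP_inter (meas_coord le_rfl _), PP_coord, coin_false, coin_true]
      apply mul_pos <;> linarith
    · rintro ω ⟨h3, h4⟩
      change gmap ω 0 = true
      rw [gmap_eq (m := 1) (i := 0) ?_ ?_]
      · simp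
      · intro l hl
        have : l = 0 := by omega
        subst this
        simpa using h4
      · simpa using h3

/-- eigenvector -/
noncomputable def gv (b : Bool) : ℝ := if b = true then 1 else gm

lemma gv_pos (b : Bool) : 1 ≤ gv b := by
  have := gm_gt
  unfold gv; split_ifs <;> linarith

lemma gv_le (b : Bool) : gv b ≤ gm := by
  have := gm_gt
  unfold gv; split_ifs <;> linarith

lemma gv_step (s t : Bool) : gv s * gm * gp s t ≤ gv t := by
  have h0 := gm_sq
  have h1 := gm_gt
  have h2 := gm_lt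
  cases s <;> cases t <;> simp [gv, gp] <;> nlinarith

lemma gv_step' (s t : Bool) (h : gp s t ≠ 0) : gv s * gm * gp s t = gv t := by
  have h0 := gm_sq
  cases s <;> cases t <;> simp [gv, gp] at h ⊢ <;> nlinarith

lemma gmu_upper (n : ℕ) (w : ℕ → Bool) :
    gmu.real {x | ∀ j : ℕ, j ≤ n → x j = w j} * (gm ^ n * gv (w 0)) ≤ gv (w n) := by
  induction n with
  | zero =>
    rw [pow_zero, one_mul]
    have := measureReal_le_one (μ := gmu) (s := {x | ∀ j : ℕ, j ≤ 0 → x j = w j})
    have := gv_pos (w 0)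
    nlinarith
  | succ n ih =>
    rw [gmu_markov]
    have h1 : 0 ≤ gm * gp (w n) (w (n + 1)) := mul_nonneg (by linarith [gm_gt]) (gp_nonneg _ _)
    calc _ = (gmu.real {x | ∀ j : ℕ, j ≤ n → x j = w j} * (gm ^ n * gv (w 0))) *
          (gm * gp (w n) (w (n + 1))) := by rw [pow_succ]; ring
      _ ≤ gv (w n) * (gm * gp (w n) (w (n + 1))) := mul_le_mul_of_nonneg_right ih h1
      _ = gv (w n) * gm * gp (w n) (w (n + 1)) := by ring
      _ ≤ _ := gv_step _ _

lemma gmu_upper' (n : ℕ) (w : ℕ → Bool) :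
    gmu.real {x | ∀ j : ℕ, j ≤ n → x j = w j} * gm ^ (n + 1) ≤ gm ^ 2 := by
  have h := gmu_upper n w
  have h1 := gv_pos (w 0)
  have h2 := gv_le (w n)
  have h3 : 0 ≤ gmu.real {x | ∀ j : ℕ, j ≤ n → x j = w j} * gm ^ n :=
    mul_nonneg measureReal_nonneg (pow_nonneg (by linarith [gm_gt]) _)
  have h4 : gmu.real {x | ∀ j : ℕ, j ≤ n → x j = w j} * gm ^ n ≤ gm := by nlinarith
  calc _ = (gmu.real {x | ∀ j : ℕ, j ≤ n → x j = w j} * gm ^ n) * gm := by rw [pow_succ]; ring
    _ ≤ gm * gm := mul_le_mul_of_nonneg_right h4 (by linarith [gm_gt])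
    _ = _ := by ring

/-- the smaller of the state probabilities -/
noncomputable def gδ : ℝ := min (gmu.real {x | x 0 = true}) (gmu.real {x | x 0 = false})

lemma gδ_pos : 0 < gδ := lt_min (gmu_pos _) (gmu_pos _)

lemma gδ_le (b : Bool) : gδ ≤ gmu.real {x | x 0 = b} := by
  cases b
  · exact min_le_right _ _
  · exact min_le_left _ _

lemma gmu_lower (n : ℕ) (w : ℕ → Bool)
    (h : gmu.real {x | ∀ j : ℕ, j ≤ n → x j = w j} ≠ 0) :
    gδ * gv (w n) ≤ gmu.real {x | ∀ j : ℕ, j ≤ n → x j = w j} * (gm ^ n * gv (w 0)) := by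
  induction n with
  | zero =>
    rw [pow_zero, one_mul]
    have e : {x : ℤ → Bool | ∀ j : ℕ, j ≤ 0 → x j = w j} = {x | x 0 = w 0} := by
      ext x; simp
    rw [e]
    exact mul_le_mul_of_nonneg_right (gδ_le _) (by linarith [gv_pos (w 0)])
  | succ n ih =>
    rw [gmu_markov] at h ⊢
    have h1 := left_ne_zero_of_mul h
    have h2 := right_ne_zero_of_mul h
    have h3 : 0 ≤ gm * gp (w n) (w (n + 1)) := mul_nonneg (by linarith [gm_gt]) (gp_nonneg _ _)
    calc gδ * gv (w (n + 1)) = gδ * (gv (w n) * gm * gp (w n) (w (n + 1))) := by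
          rw [gv_step' _ _ h2]
      _ = (gδ * gv (w n)) * (gm * gp (w n) (w (n + 1))) := by ring
      _ ≤ _ := mul_le_mul_of_nonneg_right (ih h1) h3
      _ = _ := by rw [pow_succ]; ring

lemma gmu_lower' (n : ℕ) (w : ℕ → Bool)
    (h : gmu.real {x | ∀ j : ℕ, j ≤ n → x j = w j} ≠ 0) :
    gδ ≤ gmu.real {x | ∀ j : ℕ, j ≤ n → x j = w j} * gm ^ (n + 1) := by
  have h1 := gmu_lower n w h
  have h2 := gv_pos (w n)
  have h3 := gv_le (w 0)
  have h4 := gδ_pos
  have h5 : 0 ≤ gmu.real {x | ∀ j : ℕ, j ≤ n → x j = w j} * gm ^ n :=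
    mul_nonneg measureReal_nonneg (pow_nonneg (by linarith [gm_gt]) _)
  calc gδ ≤ gδ * gv (w n) := by nlinarith
    _ ≤ _ := h1
    _ = (gmu.real {x | ∀ j : ℕ, j ≤ n → x j = w j} * gm ^ n) * gv (w 0) := by ring
    _ ≤ (gmu.real {x | ∀ j : ℕ, j ≤ n → x j = w j} * gm ^ n) * gm :=
        mul_le_mul_of_nonneg_left h3 h5
    _ = _ := by rw [pow_succ]; ring

end Pool.Agent.W851.FC
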