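import Mathlib
import Pool.Agent.Helper179.KSDefs

/-! Definitions for finitary codings of Markov chains (MP_207c40_pr). -/

set_option autoImplicit false

open MeasureTheory Filter Topology
open scoped ENNReal

namespace Pool.Agent.W851.FC

/-- The shift on bi-infinite sequences, `(shift x) i = x (i + 1)`. -/
def shift {A : Type} (x : ℤ → A) : ℤ → A := fun i => x (i + 1)

/-- The law of the i.i.d. process indexed by `ℤ` whose marginals have law `ν`. -/
noncomputable def iid {A : Type} [MeasurableSpace A] (ν : Measure A) [IsProbabilityMeasure ν] :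
    Measure (ℤ → A) := Measure.infinitePi (fun _ : ℤ => ν)

/-- `μ` is the law of a stationary Markov chain `(M_i)`, `i ∈ ℤ`, with transition
probabilities `p s t`. -/
structure IsStationaryChain {S : Type} [MeasurableSpace S] (p : S → S → ℝ)
    (μ : Measure (ℤ → S)) : Prop where
  prob : IsProbabilityMeasure μ
  stat : MeasurePreserving shift μ μ
  nonneg : ∀ s t, 0 ≤ p s t
  sum_one : ∀ s, HasSum (p s) 1
  markov : ∀ (n : ℕ) (w : ℕ → S), μ.real {x | ∀ j : ℕ, j ≤ n + 1 → x j = w j} =
    μ.real {x | ∀ j : ℕ, j ≤ n → x j = w j} * p (w n) (w (n + 1))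

/-- The chain is irreducible and aperiodic (and positive recurrent, the stationary law charging
every state): for all states `s`, `t`, `P (M_0 = s, M_n = t) > 0` for all large `n`. -/
def IsErgodicChain {S : Type} [MeasurableSpace S] (μ : Measure (ℤ → S)) : Prop :=
  ∀ s t : S, ∃ N : ℕ, ∀ n : ℕ, N ≤ n → 0 < μ.real {x | x 0 = s ∧ x n = t}

/-- Exponential return times: for some state `s` (of positive probability) the return time
`τ = inf {n ≥ 1 : M_n = s}` satisfies `P (τ > n | M_0 = s) ≤ C exp (- c n)` for all `n`. -/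
def ExpReturnTimes {S : Type} [MeasurableSpace S] (μ : Measure (ℤ → S)) : Prop :=
  ∃ s : S, 0 < μ.real {x | x 0 = s} ∧ ∃ C c : ℝ, 0 < c ∧ ∀ n : ℕ,
    μ.real {x | x 0 = s ∧ ∀ k : ℕ, 1 ≤ k → k ≤ n → x k ≠ s} ≤
      C * Real.exp (-(c * n)) * μ.real {x | x 0 = s}

/-- `φ` is a factor map from the i.i.d. process with marginal law `ν` onto the process with
law `μ`: it is measurable, commutes with the shift almost surely, and carries the law of the
i.i.d. process to `μ`. -/
structure IsFactorMap {A S : Type} [MeasurableSpace A] [MeasurableSpace S] (ν : Measure A)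
    [IsProbabilityMeasure ν] (μ : Measure (ℤ → S)) (φ : (ℤ → A) → (ℤ → S)) : Prop where
  meas : Measurable φ
  comm : ∀ᵐ y ∂(iid ν), φ (shift y) = shift (φ y)
  law : (iid ν).map φ = μ

/-- `φ` is finitary with coding window (at most) `R`: off a null set, `φ(y)_0` is determined by
`(y_{-R(y)}, ..., y_{R(y)})`. -/
def IsCodingWindow {A S : Type} [MeasurableSpace A] (ν : Measure A) [IsProbabilityMeasure ν]
    (φ : (ℤ → A) → (ℤ → S)) (R : (ℤ → A) → ℕ) : Prop :=
  ∃ G : Set (ℤ → A), (∀ᵐ y ∂(iid ν), y ∈ G) ∧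
    ∀ y ∈ G, ∀ y' ∈ G, (∀ i : ℤ, |i| ≤ (R y : ℤ) → y' i = y i) → φ y' 0 = φ y 0

/-- `R` has exponential tails: `P (R > r) ≤ C exp (- c r)` for all `r`. -/
def ExpTails {A : Type} [MeasurableSpace A] (ν : Measure A) [IsProbabilityMeasure ν]
    (R : (ℤ → A) → ℕ) : Prop :=
  ∃ C c : ℝ, 0 < c ∧ ∀ r : ℕ, (iid ν) {y | r < R y} ≤ ENNReal.ofReal (C * Real.exp (-(c * r)))

end Pool.Agent.W851.FC
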