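import Pool.Agent.W851.FC.KS

set_option autoImplicit false

open MeasureTheory Filter Topology ProbabilityTheory
open scoped ENNReal
open Pool.Agent.Helper179.KS

namespace Pool.Agent.W851.FC

lemma prod_sum_one {ι : Type*} [Fintype ι] (q : ι → ℝ) (h : ∑ i, q i = 1) (n : ℕ) :
    ∑ w : Fin n → ι, ∏ j, q (w j) = 1 := by
  classical
  have := Finset.prod_univ_sum (fun _ : Fin n => (Finset.univ : Finset ι)) (fun _ i => q i)
  simp only [h, Finset.prod_const_one, Fintype.piFinset_univ] at this
  exact this.symm

lemma prod_entropy {ι : Type*} [Fintype ι] (q : ι → ℝ) (h : ∑ i, q i = 1) (n : ℕ) :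
    ∑ w : Fin n → ι, Real.negMulLog (∏ j, q (w j)) = n * ∑ i, Real.negMulLog (q i) := by
  induction n with
  | zero => simp
  | succ n ih =>
    rw [← (Fin.consEquiv (fun _ : Fin (n + 1) => ι)).sum_comp, Fintype.sum_prod_type]
    have : ∀ (a : ι) (w : Fin n → ι),
        Real.negMulLog (∏ j, q ((Fin.consEquiv (fun _ : Fin (n + 1) => ι)) (a, w) j)) =
        (∏ j, q (w j)) * Real.negMulLog (q a) + q a * Real.negMulLog (∏ j, q (w j)) := by
      intro a w
      rw [Fin.prod_univ_succ]
      simp only [Fin.consEquiv_apply, Fin.cons_zero, Fin.cons_succ]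
      rw [Real.negMulLog_mul]
    simp only [this]
    rw [Finset.sum_congr rfl fun a _ => Finset.sum_add_distrib]
    rw [Finset.sum_add_distrib]
    simp only [← Finset.sum_mul, ← Finset.mul_sum, prod_sum_one q h n, one_mul, ih, h]
    push_cast
    ring

lemma le_ksEntropy {X : Type*} [MeasurableSpace X] (μ : Measure X) (T : X → X) {k : ℕ}
    {P : X → Fin k} (hP : Measurable P) {c : ℝ}
    (h : ∀ ε > 0, ∃ᶠ n : ℕ in atTop, c - ε ≤ shannonEntropy μ (itinerary T P n) / n) :
    (c : EReal) ≤ ksEntropy μ T := by
  refine le_trans ?_ (le_iSup_of_le k (le_iSup_of_le P (le_iSup_of_le hP le_rfl)))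
  unfold partitionEntropy
  apply le_of_forall_lt_imp_le_of_dense
  intro b hb
  induction b using EReal.rec with
  | bot => exact bot_le
  | top => exact absurd hb (by simp)
  | coe b =>
    have hb' : b < c := by exact_mod_cast hb
    apply le_limsup_of_frequently_le
    · refine (h (c - b) (by linarith)).mono fun n hn => ?_
      have : b ≤ shannonEntropy μ (itinerary T P n) / n := by linarith
      exact_mod_cast this
    · isBoundedDefault

/-- entropy of the i.i.d. process is at least the entropy of every finite partition of the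
alphabet -/
theorem iid_ks_ge {A : Type} [MeasurableSpace A] (ν : Measure A) [IsProbabilityMeasure ν] {k : ℕ}
    {g : A → Fin k} (hg : Measurable g) :
    ((shannonEntropy ν g : ℝ) : EReal) ≤ ksEntropy (iid ν) shift := by
  refine le_ksEntropy (iid ν) shift (P := fun y : ℤ → A => g (y 0))
    (hg.comp (measurable_pi_apply 0)) fun ε hε => ?_
  refine Eventually.frequently ?_
  filter_upwards [eventually_gt_atTop 0] with n hn
  have hn' : (0 : ℝ) < n := by exact_mod_cast hn
  have key : shannonEntropy (iid ν) (itinerary shift (fun y : ℤ → A => g (y 0)) n) =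
      n * shannonEntropy ν g := by
    unfold shannonEntropy
    rw [← prod_entropy (fun i => ν.real (g ⁻¹' {i})) (sum_measureReal_preimage ν hg) n]
    refine Finset.sum_congr rfl fun w _ => ?_
    congr 1
    have e : itinerary shift (fun y : ℤ → A => g (y 0)) n ⁻¹' {w} =
        Set.pi ((Finset.univ : Finset (Fin n)).image (fun j : Fin n => ((j : ℕ) : ℤ)))
          (fun i => if h : ∃ j : Fin n, ((j : ℕ) : ℤ) = i then g ⁻¹' {w h.choose} else ∅) := by
      ext y
      simp only [Set.mem_preimage, Set.mem_singleton_iff, Set.mem_pi]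
      constructor
      · rintro rfl i hi
        simp only [Finset.coe_image, Finset.coe_univ, Set.image_univ, Set.mem_range] at hi
        rw [dif_pos hi]
        have h2 := hi.choose_spec
        change g (y i) = _
        unfold itinerary
        simp only [shift_iter]
        rw [zero_add, h2]
      · intro h
        funext j
        have h1 := h ((j : ℕ) : ℤ) (by simp)
        have h2 : ∃ j' : Fin n, ((j' : ℕ) : ℤ) = ((j : ℕ) : ℤ) := ⟨j, rfl⟩
        rw [dif_pos h2] at h1
        have h3 : h2.choose = j := by
          have := h2.choose_spec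
          exact Fin.ext (by exact_mod_cast this)
        rw [h3] at h1
        unfold itinerary
        simp only [shift_iter, zero_add]
        exact h1
    rw [e, Measure.real]
    change ((Measure.infinitePi (fun _ : ℤ => ν)) _).toReal = _
    rw [Measure.infinitePi_pi, Finset.prod_image]
    · rw [ENNReal.toReal_prod]
      refine Finset.prod_congr rfl fun j _ => ?_
      have h2 : ∃ j' : Fin n, ((j' : ℕ) : ℤ) = ((j : ℕ) : ℤ) := ⟨j, rfl⟩
      rw [dif_pos h2]
      have h3 : h2.choose = j := by
        have := h2.choose_spec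
        exact Fin.ext (by exact_mod_cast this)
      rw [h3]
      rfl
    · intro a _ b _ hab
      have hab' : ((a : ℕ) : ℤ) = ((b : ℕ) : ℤ) := hab
      exact Fin.ext (by exact_mod_cast hab')
    · intro i _
      split_ifs
      · exact hg (measurableSet_singleton _)
      · exact MeasurableSet.empty
  rw [key, mul_div_cancel_left₀ _ hn'.ne']
  linarith

/-- The Kolmogorov-Sinai entropy of the golden mean chain is at least `log gm`. -/
theorem gmu_ks_ge : ((Real.log gm : ℝ) : EReal) ≤ ksEntropy gmu shift := by
  have hlog : 0 < Real.log gm := Real.log_pos gm_gt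
  have hg0 : (0 : ℝ) < gm := by linarith [gm_gt]
  let e : Bool → Fin 2 := fun b => if b = true then 1 else 0
  have he : Function.Injective e := by
    intro a b hab
    cases a <;> cases b <;> simp_all [e]
  have hem : Measurable (fun x : ℤ → Bool => e (x 0)) :=
    (measurable_of_finite e).comp (measurable_pi_apply 0)
  refine le_ksEntropy gmu shift (P := fun x : ℤ → Bool => e (x 0)) hem fun ε hε => ?_
  refine Eventually.frequently ?_
  have h1 : Tendsto (fun n : ℕ => 2 * Real.log gm / (n : ℝ)) atTop (𝓝 0) :=
    tendsto_const_div_atTop_nhds_zero_nat _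
  filter_upwards [eventually_gt_atTop 0, h1.eventually (ge_mem_nhds hε)] with n hn hn2
  have hn' : (0 : ℝ) < n := by exact_mod_cast hn
  have hmi := measurable_itinerary gmu_shift.measurable hem n
  have key : ∀ w : Fin n → Fin 2, gmu.real (itinerary shift (fun x : ℤ → Bool => e (x 0)) n ⁻¹' {w}) *
      (n * Real.log gm - 2 * Real.log gm) ≤
      Real.negMulLog (gmu.real (itinerary shift (fun x : ℤ → Bool => e (x 0)) n ⁻¹' {w})) := by
    intro w
    rcases eq_or_ne (gmu.real (itinerary shift (fun x : ℤ → Bool => e (x 0)) n ⁻¹' {w})) 0 with h0 | h0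
    · rw [h0]; simp
    have hpos : 0 < gmu.real (itinerary shift (fun x : ℤ → Bool => e (x 0)) n ⁻¹' {w}) :=
      lt_of_le_of_ne measureReal_nonneg h0.symm
    have hne : (itinerary shift (fun x : ℤ → Bool => e (x 0)) n ⁻¹' {w}).Nonempty := by
      by_contra hcon
      rw [Set.not_nonempty_iff_eq_empty] at hcon
      rw [hcon] at h0
      simp at h0
    obtain ⟨x₀, hx₀⟩ := hne
    have hsub : itinerary shift (fun x : ℤ → Bool => e (x 0)) n ⁻¹' {w} ⊆
        {x | ∀ j : ℕ, j ≤ n - 1 → x j = x₀ j} := by
      intro x hx j hj
      have h2 : itinerary shift (fun x : ℤ → Bool => e (x 0)) n x =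
        itinerary shift (fun x : ℤ → Bool => e (x 0)) n x₀ := hx.trans hx₀.symm
      have h3 := congrFun h2 ⟨j, by omega⟩
      unfold itinerary at h3
      simp only [shift_iter, zero_add] at h3
      exact he h3
    have h4 := gmu_upper' (n - 1) (fun j => x₀ j)
    have h5 : n - 1 + 1 = n := by omega
    rw [h5] at h4
    have h6 : gmu.real (itinerary shift (fun x : ℤ → Bool => e (x 0)) n ⁻¹' {w}) * gm ^ n ≤
        gm ^ 2 := (mul_le_mul_of_nonneg_right (measureReal_mono hsub) (by positivity)).trans h4
    have h7 := Real.log_le_log (by positivity) h6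
    rw [Real.log_mul hpos.ne' (by positivity), Real.log_pow, Real.log_pow] at h7
    rw [Real.negMulLog]
    push_cast at h7
    nlinarith
  have hsum : n * Real.log gm - 2 * Real.log gm ≤
      shannonEntropy gmu (itinerary shift (fun x : ℤ → Bool => e (x 0)) n) := by
    unfold shannonEntropy
    refine le_trans ?_ (Finset.sum_le_sum fun w _ => key w)
    rw [← Finset.sum_mul, sum_measureReal_preimage gmu hmi, one_mul]
  rw [le_div_iff₀ hn']
  have h8 : 2 * Real.log gm ≤ ε * n := by rwa [div_le_iff₀ hn'] at hn2
  linarith

end Pool.Agent.W851.FC
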