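import Pool.Agent.W851.FC.Main

set_option autoImplicit false

open MeasureTheory Filter Topology ProbabilityTheory
open scoped ENNReal
open Pool.Agent.Helper179.KS

namespace Pool.Agent.W851.FC

section
variable {A : Type} [MeasurableSpace A] (ν : Measure A) [IsProbabilityMeasure ν]

/-- uniform bound for the exponential moments -/
lemma ZZ_bound [MeasurableSingletonClass A] {φ : (ℤ → A) → (ℤ → Bool)}
    (hφ : IsFactorMap ν gmu φ) {R : (ℤ → A) → ℕ} {G : Set (ℤ → A)}
    (hR : ∀ y ∈ G, ∀ y' ∈ G, (∀ i : ℤ, |i| ≤ (R y : ℤ) → y' i = y i) → φ y' 0 = φ y 0)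
    (hG : ∀ᵐ y ∂(iid ν), y ∈ Good ν φ G) {C c : ℝ} (hC : 0 ≤ C) (hc : 0 < c)
    (hT : ∀ r : ℕ, (iid ν) {y | r < R y} ≤ ENNReal.ofReal (C * Real.exp (-c) ^ r)) :
    ∃ θ : ℝ, 0 < θ ∧ ∃ K : ℝ, ∀ N : ℕ, ∫⁻ y, ZZ ν θ N y ∂(iid ν) ≤ ENNReal.ofReal K := by
  have hg1 : 1 ≤ gm := gm_gt.le
  have hg0 : (0 : ℝ) < gm := by linarith
  have hlog : 0 < Real.log gm := Real.log_pos gm_gt
  set s : ℝ := Real.exp (-c) with hs
  have hs0 : 0 < s := Real.exp_pos _
  have hs1 : s < 1 := by rw [hs, ← Real.exp_zero]; exact Real.exp_lt_exp.2 (by linarith)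
  set θ : ℝ := c / (4 * Real.log gm) with hθ
  have hθ0 : 0 < θ := by positivity
  set ρ : ℝ := gm ^ (2 * θ) with hρ
  have hρ0 : 0 < ρ := Real.rpow_pos_of_pos hg0 _
  have hρe : ρ = Real.exp (c / 2) := by
    rw [hρ, Real.rpow_def_of_pos hg0, hθ]
    congr 1
    field_simp
    ring
  have hρs : ρ * s < 1 := by
    rw [hρe, hs, ← Real.exp_add, ← Real.exp_zero]
    exact Real.exp_lt_exp.2 (by linarith)
  have hρs0 : 0 ≤ ρ * s := by positivity
  set κ : ℝ := (gm ^ 2) ^ θ with hκ
  have hκ0 : 0 < κ := Real.rpow_pos_of_pos (by positivity) _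
  set D : ℝ := 2 * C / (1 - s) with hD
  have hD0 : 0 ≤ D := div_nonneg (by positivity) (by linarith)
  refine ⟨θ, hθ0, κ + κ * ρ * D / (1 - ρ * s), fun N => ?_⟩
  set S : ℕ → Set (ℤ → A) := fun k => toMeasurable (iid ν) (BB R N k)ᶜ with hS
  have hpt : ∀ᵐ y ∂(iid ν), ZZ ν θ N y ≤ ENNReal.ofReal κ +
      ∑ k ∈ Finset.range N, (S k).indicator (fun _ => ENNReal.ofReal (κ * ρ ^ (k + 1))) y := by
    filter_upwards [hG] with y hy
    have hex : ∃ k, y ∈ BB R N k := ⟨N, fun i h1 h2 => by omega⟩
    have hZ : ∀ k, y ∈ BB R N k → ZZ ν θ N y ≤ ENNReal.ofReal (κ * ρ ^ k) := by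
      intro k hk
      have h1 := prod_bound ν hφ hR hG N k hy hk
      have hp0 : 0 ≤ ∏ i ∈ Finset.range N, ν.real {y i} :=
        Finset.prod_nonneg fun _ _ => measureReal_nonneg
      have h2 : ZZ ν θ N y = ENNReal.ofReal (((∏ i ∈ Finset.range N, ν.real {y i}) * gm ^ N) ^ θ) := by
        unfold ZZ
        rw [← ENNReal.ofReal_prod_of_nonneg fun i _ => Real.rpow_nonneg
          (mul_nonneg measureReal_nonneg hg0.le) _]
        congr 1
        rw [Real.finsetProd_rpow _ _ fun i _ => mul_nonneg measureReal_nonneg hg0.le,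
          Finset.prod_mul_distrib, Finset.prod_const, Finset.card_range]
      rw [h2]
      refine ENNReal.ofReal_le_ofReal ?_
      refine (Real.rpow_le_rpow (by positivity) h1 hθ0.le).trans (le_of_eq ?_)
      rw [Real.mul_rpow (by positivity) (by positivity), hκ]
      congr 1
      rw [hρ, ← Real.rpow_natCast gm (2 * k), ← Real.rpow_mul hg0.le,
        ← Real.rpow_natCast (gm ^ (2 * θ)) k, ← Real.rpow_mul hg0.le]
      congr 1
      push_cast
      ring
    classical
    rcases hk : Nat.find hex with _ | k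
    · have h0 := Nat.find_spec hex
      rw [hk] at h0
      refine (hZ 0 h0).trans ?_
      rw [pow_zero, mul_one]
      exact le_self_add
    · have h0 := Nat.find_spec hex
      rw [hk] at h0
      have h1 : y ∉ BB R N k := Nat.find_min hex (by omega)
      have h2 : k < N := by
        by_contra hcon
        exact h1 fun i h3 h4 => by omega
      have h3 : y ∈ S k := subset_toMeasurable _ _ h1
      refine (hZ _ h0).trans ?_
      refine le_trans ?_ le_add_self
      refine le_trans ?_ (Finset.single_le_sum (f := fun k =>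
        (S k).indicator (fun _ => ENNReal.ofReal (κ * ρ ^ (k + 1))) y)
        (fun _ _ => zero_le) (Finset.mem_range.2 h2))
      simp only [Set.indicator_of_mem h3]
      exact le_rfl
  have hSP : ∀ k, (iid ν) (S k) ≤ ENNReal.ofReal (D * s ^ k) := fun k => by
    rw [hS]
    simp only [measure_toMeasurable]
    exact BB_compl ν R hC hs0.le hs1 hT N k
  calc ∫⁻ y, ZZ ν θ N y ∂(iid ν) ≤ ∫⁻ y, (ENNReal.ofReal κ +
      ∑ k ∈ Finset.range N, (S k).indicator (fun _ => ENNReal.ofReal (κ * ρ ^ (k + 1))) y)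
        ∂(iid ν) := lintegral_mono_ae hpt
    _ = ENNReal.ofReal κ + ∑ k ∈ Finset.range N,
        ENNReal.ofReal (κ * ρ ^ (k + 1)) * (iid ν) (S k) := by
        rw [lintegral_add_left measurable_const, lintegral_const, measure_univ, mul_one,
          lintegral_finsetSum _ fun k _ => measurable_const.indicator (measurableSet_toMeasurable _ _)]
        congr 1
        refine Finset.sum_congr rfl fun k _ => ?_
        rw [lintegral_indicator_const (measurableSet_toMeasurable _ _)]
    _ ≤ ENNReal.ofReal κ + ∑ k ∈ Finset.range N,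
        ENNReal.ofReal (κ * ρ * D * (ρ * s) ^ k) := by
        refine add_le_add le_rfl (Finset.sum_le_sum fun k _ => ?_)
        refine (mul_le_mul le_rfl (hSP k) zero_le zero_le).trans (le_of_eq ?_)
        rw [← ENNReal.ofReal_mul (by positivity)]
        congr 1
        rw [pow_succ, mul_pow]
        ring
    _ = ENNReal.ofReal (κ + ∑ k ∈ Finset.range N, κ * ρ * D * (ρ * s) ^ k) := by
        rw [ENNReal.ofReal_add hκ0.le (Finset.sum_nonneg fun _ _ => by positivity),
          ENNReal.ofReal_sum_of_nonneg fun _ _ => by positivity]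
    _ ≤ _ := by
        refine ENNReal.ofReal_le_ofReal (add_le_add le_rfl ?_)
        have hsum : Summable fun k : ℕ => κ * ρ * D * (ρ * s) ^ k :=
          (summable_geometric_of_lt_one hρs0 hρs).mul_left _
        refine (hsum.sum_le_tsum _ fun _ _ => by positivity).trans (le_of_eq ?_)
        rw [tsum_mul_left, tsum_geometric_of_lt_one hρs0 hρs]
        ring

/-- rigidity: bounded moments force `p = 1 / gm` almost surely -/
lemma rigid (hm : Measurable fun a => ν.real {a}) (hpos : ∀ᵐ a ∂ν, 0 < ν.real {a})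
    (hint : ∫⁻ a, ENNReal.ofReal (-Real.log (ν.real {a})) ∂ν ≤ ENNReal.ofReal (Real.log gm))
    {θ : ℝ} (hθ : 0 < θ) (hM : ∫⁻ a, ENNReal.ofReal ((ν.real {a} * gm) ^ θ) ∂ν ≤ 1) :
    ∀ᵐ a ∂ν, ν.real {a} * gm = 1 := by
  have hg0 : (0 : ℝ) < gm := by linarith [gm_gt]
  have hlog : 0 < Real.log gm := Real.log_pos gm_gt
  have hl0 : ∀ a, 0 ≤ -Real.log (ν.real {a}) := fun a =>
    neg_nonneg.2 (Real.log_nonpos measureReal_nonneg measureReal_le_one)
  have hlm : Measurable fun a => -Real.log (ν.real {a}) := (Real.measurable_log.comp hm).neg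
  -- integrability
  have hI1 : Integrable (fun a => -Real.log (ν.real {a})) ν := by
    refine ⟨hlm.aestronglyMeasurable, ?_⟩
    rw [hasFiniteIntegral_iff_ofReal (Eventually.of_forall hl0)]
    exact hint.trans_lt ENNReal.ofReal_lt_top
  have hv1 : ∫ a, -Real.log (ν.real {a}) ∂ν ≤ Real.log gm := by
    rw [integral_eq_lintegral_of_nonneg_ae (Eventually.of_forall hl0) hlm.aestronglyMeasurable]
    exact ENNReal.toReal_le_of_le_ofReal hlog.le hint
  have hu0 : ∀ a, 0 ≤ (ν.real {a} * gm) ^ θ := fun a =>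
    Real.rpow_nonneg (mul_nonneg measureReal_nonneg hg0.le) _
  have hum : Measurable fun a => (ν.real {a} * gm) ^ θ := (hm.mul_const _).pow_const _
  have hI2 : Integrable (fun a => (ν.real {a} * gm) ^ θ) ν := by
    refine ⟨hum.aestronglyMeasurable, ?_⟩
    rw [hasFiniteIntegral_iff_ofReal (Eventually.of_forall hu0)]
    exact hM.trans_lt ENNReal.one_lt_top
  have hv2 : ∫ a, (ν.real {a} * gm) ^ θ ∂ν ≤ 1 := by
    rw [integral_eq_lintegral_of_nonneg_ae (Eventually.of_forall hu0) hum.aestronglyMeasurable]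
    refine ENNReal.toReal_le_of_le_ofReal zero_le_one ?_
    simpa using hM
  -- the nonnegative function
  set F : A → ℝ := fun a => (ν.real {a} * gm) ^ θ - 1 -
    θ * (Real.log gm - (-Real.log (ν.real {a}))) with hF
  have hFI : Integrable F ν :=
    (hI2.sub (integrable_const 1)).sub (((integrable_const _).sub hI1).const_mul θ)
  have hexp : ∀ a, 0 < ν.real {a} → (ν.real {a} * gm) ^ θ =
      Real.exp (θ * Real.log (ν.real {a} * gm)) := by
    intro a ha
    rw [Real.rpow_def_of_pos (mul_pos ha hg0), mul_comm]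
  have hF0 : 0 ≤ᵐ[ν] F := by
    filter_upwards [hpos] with a ha
    simp only [Pi.zero_apply, hF]
    rw [hexp a ha, Real.log_mul ha.ne' hg0.ne']
    have := Real.add_one_le_exp (θ * (Real.log (ν.real {a}) + Real.log gm))
    linarith
  have hFint : ∫ a, F a ∂ν ≤ 0 := by
    have e : ∫ a, F a ∂ν = (∫ a, (ν.real {a} * gm) ^ θ ∂ν) - 1 -
        θ * (Real.log gm - ∫ a, -Real.log (ν.real {a}) ∂ν) := by
      have e1 : Integrable (fun a => (ν.real {a} * gm) ^ θ - 1) ν := hI2.sub (integrable_const 1)
      have e3 : Integrable (fun a => Real.log gm - (-Real.log (ν.real {a}))) ν :=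
        (integrable_const _).sub hI1
      have e2 : Integrable (fun a => θ * (Real.log gm - (-Real.log (ν.real {a})))) ν :=
        e3.const_mul θ
      simp only [hF]
      rw [integral_sub e1 e2, integral_sub hI2 (integrable_const 1), integral_const_mul,
        integral_sub (integrable_const _) hI1]
      simp
    rw [e]
    have : 0 ≤ θ * (Real.log gm - ∫ a, -Real.log (ν.real {a}) ∂ν) :=
      mul_nonneg hθ.le (by linarith)
    linarith
  have hFz : F =ᵐ[ν] 0 :=
    (integral_eq_zero_iff_of_nonneg_ae hF0 hFI).1 (le_antisymm hFint (integral_nonneg_of_ae hF0))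
  filter_upwards [hFz, hpos] with a ha1 ha2
  simp only [hF, Pi.zero_apply] at ha1
  rw [hexp a ha2, Real.log_mul ha2.ne' hg0.ne'] at ha1
  by_contra hne
  have h1 : θ * (Real.log (ν.real {a}) + Real.log gm) ≠ 0 := by
    refine mul_ne_zero hθ.ne' ?_
    rw [← Real.log_mul ha2.ne' hg0.ne']
    intro h0
    rcases Real.log_eq_zero.1 h0 with h | h | h
    · exact (mul_pos ha2 hg0).ne' h
    · exact hne h
    · have := mul_pos ha2 hg0
      linarith
  have := Real.add_one_lt_exp h1
  linarith

/-- **Main theorem.** -/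
theorem no_coding [StandardBorelSpace A] (hent : ksEntropy (iid ν) shift ≤ ksEntropy gmu shift)
    {φ : (ℤ → A) → (ℤ → Bool)} (hφ : IsFactorMap ν gmu φ) {R : (ℤ → A) → ℕ}
    (hR : IsCodingWindow ν φ R) : ¬ ExpTails ν R := by
  rintro ⟨C, c, hc, hT⟩
  obtain ⟨G, hG, hR⟩ := hR
  have hg0 : (0 : ℝ) < gm := by linarith [gm_gt]
  have hH : ∀ (k : ℕ) (g : A → Fin k), Measurable g → shannonEntropy ν g ≤ Real.log gm := by
    intro k g hg
    have h1 := (iid_ks_ge ν hg).trans (hent.trans gmu_ks_le)
    exact_mod_cast h1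
  obtain ⟨hm, hpos, hint⟩ := atomic ν (Real.log gm) hH
  have hGood := ae_Good ν hG hφ.comm hpos
  have hT' : ∀ r : ℕ, (iid ν) {y | r < R y} ≤ ENNReal.ofReal (|C| * Real.exp (-c) ^ r) := by
    intro r
    refine (hT r).trans (ENNReal.ofReal_le_ofReal ?_)
    rw [← Real.exp_nat_mul]
    have e : (r : ℝ) * -c = -(c * r) := by ring
    rw [e]
    exact mul_le_mul_of_nonneg_right (le_abs_self C) (Real.exp_pos _).le
  obtain ⟨θ, hθ, K, hK⟩ := ZZ_bound ν hφ hR hGood (abs_nonneg C) hc hT'
  set M : ℝ≥0∞ := ∫⁻ a, ENNReal.ofReal ((ν.real {a} * gm) ^ θ) ∂ν with hMdef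
  have hpow : ∀ N : ℕ, M ^ N ≤ ENNReal.ofReal K := fun N => by
    rw [hMdef, ← lint_ZZ ν hm θ N]
    exact hK N
  have hM1 : M ≤ 1 := by
    by_contra hcon
    rw [not_le] at hcon
    have hMtop : M ≠ ∞ := by
      intro h
      have := hpow 1
      rw [pow_one, h] at this
      exact absurd this (by simp)
    have hMr : 1 < M.toReal := by
      rw [← ENNReal.toReal_one]
      exact (ENNReal.toReal_lt_toReal (by simp) hMtop).2 hcon
    obtain ⟨N, hN⟩ := ((tendsto_pow_atTop_atTop_of_one_lt hMr).eventually_gt_atTop |K|).exists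
    have h1 := ENNReal.toReal_mono (by simp) (hpow N)
    rw [ENNReal.toReal_pow, ENNReal.toReal_ofReal'] at h1
    have h2 : max K 0 ≤ |K| := max_le (le_abs_self K) (abs_nonneg K)
    linarith
  have hrig := rigid ν hm hpos hint hθ hM1
  obtain ⟨a, ha⟩ := hrig.exists
  have hpa : ν.real {a} < 1 := by
    have := gm_gt
    by_contra hcon
    push Not at hcon
    nlinarith
  have hcompl : ν {a}ᶜ ≠ 0 := by
    intro h0
    have h1 := prob_add_prob_compl (μ := ν) (measurableSet_singleton a)
    rw [h0, add_zero] at h1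
    rw [Measure.real, h1] at hpa
    simp at hpa
  obtain ⟨a', ha', hne⟩ : ∃ a', ν.real {a'} * gm = 1 ∧ a' ∈ ({a}ᶜ : Set A) := by
    by_contra hcon
    push Not at hcon
    apply hcompl
    refine measure_mono_null ?_ (ae_iff.1 hrig)
    intro b hb
    simp only [Set.mem_ofPred_eq]
    intro h
    exact hcon b h hb
  have hne' : a' ≠ a := hne
  have hsum : ν.real {a} + ν.real {a'} ≤ 1 := by
    rw [← measureReal_union (by simpa using hne'.symm) (measurableSet_singleton a')]
    exact measureReal_le_one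
  have := gm_lt
  nlinarith

end

/-- the golden mean chain is ergodic -/
theorem gmu_ergodic : IsErgodicChain gmu := by
  have hcyl : ∀ (n : ℕ) (w : ℕ → Bool), (∀ j < n, gp (w j) (w (j + 1)) ≠ 0) →
      0 < gmu.real {x | ∀ j : ℕ, j ≤ n → x j = w j} := by
    intro n w
    induction n with
    | zero =>
      intro _
      have e : {x : ℤ → Bool | ∀ j : ℕ, j ≤ 0 → x j = w j} = {x | x 0 = w 0} := by
        ext x; simp
      rw [e]
      exact gmu_pos _
    | succ n ih =>
      intro h
      rw [gmu_markov]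
      exact mul_pos (ih fun j hj => h j (by omega))
        (lt_of_le_of_ne (gp_nonneg _ _) (h n (by omega)).symm)
  have hft : ∀ t, gp false t ≠ 0 := by
    intro t
    have h1 := gm_gt
    have h2 := gm_lt
    cases t <;> simp only [gp] <;> norm_num <;> intro h <;> linarith
  have htf : ∀ s, gp s false ≠ 0 := by
    intro s
    cases s
    · exact hft false
    · simp [gp]
  intro s t
  refine ⟨2, fun n hn => ?_⟩
  let w : ℕ → Bool := fun j => if j = 0 then s else if j = n then t else false
  refine lt_of_lt_of_le (hcyl n w ?_) (measureReal_mono ?_)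
  · intro j hj
    rcases Nat.eq_zero_or_pos j with h0 | h0
    · subst h0
      have e : w (0 + 1) = false := by
        simp only [w]
        rw [if_neg (by omega), if_neg (by omega)]
      rw [e]
      exact htf _
    · have e : w j = false := by
        simp only [w]
        rw [if_neg (by omega), if_neg (by omega)]
      rw [e]
      exact hft _
  · intro x hx
    refine ⟨?_, ?_⟩
    · have := hx 0 (by omega)
      simpa [w] using this
    · have := hx n le_rfl
      simp only [w] at this
      rw [if_neg (by omega)] at this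
      simpa using this

/-- the golden mean chain has exponential return times -/
theorem gmu_return : ExpReturnTimes gmu := by
  refine ⟨false, gmu_pos false, Real.exp 1, 1, one_pos, fun n => ?_⟩
  rcases le_or_gt 2 n with hn | hn
  · have h0 : gmu.real {x : ℤ → Bool | x 0 = false ∧ ∀ k : ℕ, 1 ≤ k → k ≤ n → x k ≠ false} = 0 := by
      let w : ℕ → Bool := fun j => if j = 0 then false else true
      refine le_antisymm ?_ measureReal_nonneg
      calc _ ≤ gmu.real {x : ℤ → Bool | ∀ j : ℕ, j ≤ 1 + 1 → x j = w j} := by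
            refine measureReal_mono ?_
            rintro x ⟨h1, h2⟩ j hj
            rcases Nat.eq_zero_or_pos j with h3 | h3
            · subst h3
              simpa [w] using h1
            · have := h2 j h3 (by omega)
              simp only [w]
              rw [if_neg (by omega)]
              simpa using this
        _ = 0 := by
            rw [gmu_markov]
            simp [w, gp]
        _ ≤ 0 := le_rfl
    rw [h0]
    exact mul_nonneg (mul_nonneg (Real.exp_pos _).le (Real.exp_pos _).le) measureReal_nonneg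
  · have h1 : 1 ≤ Real.exp 1 * Real.exp (-(1 * (n : ℝ))) := by
      rw [← Real.exp_add]
      refine Real.one_le_exp ?_
      have : (n : ℝ) ≤ 1 := by exact_mod_cast (by omega : n ≤ 1)
      linarith
    calc _ ≤ gmu.real {x : ℤ → Bool | x 0 = false} := measureReal_mono fun x hx => hx.1
      _ = 1 * gmu.real {x : ℤ → Bool | x 0 = false} := (one_mul _).symm
      _ ≤ _ := mul_le_mul_of_nonneg_right h1 measureReal_nonneg

end Pool.Agent.W851.FC
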