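import Pool.Agent.W851.FC.Chain
import Pool.Agent.Helper179.KSSharp

set_option autoImplicit false

open MeasureTheory Filter Topology ProbabilityTheory
open scoped ENNReal
open Pool.Agent.Helper179.KS

namespace Pool.Agent.W851.FC

lemma shift_iter {A : Type} (n : ℕ) (x : ℤ → A) (i : ℤ) : (shift^[n] x) i = x (i + n) := by
  induction n generalizing x i with
  | zero => simp
  | succ n ih =>
    rw [Function.iterate_succ_apply, ih]
    unfold shift
    congr 1
    push_cast
    ring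

lemma gmu_cyl_shift (r m : ℕ) (w : ℕ → Bool) :
    gmu.real {x | ∀ j : ℕ, j ≤ m → x ((j : ℤ) - r) = w j} =
      gmu.real {x | ∀ j : ℕ, j ≤ m → x j = w j} := by
  have hm : MeasurableSet {x : ℤ → Bool | ∀ j : ℕ, j ≤ m → x ((j : ℤ) - r) = w j} := by
    have : {x : ℤ → Bool | ∀ j : ℕ, j ≤ m → x ((j : ℤ) - r) = w j} =
        ⋂ j : ℕ, ⋂ _ : j ≤ m, (fun x : ℤ → Bool => x ((j : ℤ) - r)) ⁻¹' {w j} := by
      ext x; simp
    rw [this]
    exact MeasurableSet.iInter fun j => MeasurableSet.iInter fun _ =>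
      measurable_pi_apply _ (measurableSet_singleton _)
  have h := (gmu_shift.iterate r).measureReal_preimage hm.nullMeasurableSet
  rw [← h]
  congr 1
  ext x
  simp only [Set.mem_preimage, Set.mem_ofPred_eq, shift_iter]
  constructor
  · intro h1 j hj
    rw [← h1 j hj]; congr 1; ring
  · intro h1 j hj
    rw [← h1 j hj]; congr 1; ring

/-- extension of a finite word -/
def ext {m : ℕ} (w : Fin (m + 1) → Bool) (j : ℕ) : Bool := if h : j < m + 1 then w ⟨j, h⟩ else false

/-- window -/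
def win (r m : ℕ) (x : ℤ → Bool) : Fin (m + 1) → Bool := fun j => x (((j : ℕ) : ℤ) - r)

lemma win_meas (r m : ℕ) : Measurable (win r m) :=
  measurable_pi_lambda _ fun _ => measurable_pi_apply _

lemma win_preimage (r m : ℕ) (w : Fin (m + 1) → Bool) :
    win r m ⁻¹' {w} = {x | ∀ j : ℕ, j ≤ m → x ((j : ℤ) - r) = ext w j} := by
  ext x
  simp only [Set.mem_preimage, Set.mem_singleton_iff, Set.mem_ofPred_eq]
  constructor
  · rintro rfl j hj
    unfold ext win
    rw [dif_pos (by omega)]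
  · intro h
    funext j
    have := h j (by omega)
    unfold ext at this
    rw [dif_pos j.2] at this
    exact this

lemma win_measure (r m : ℕ) (w : Fin (m + 1) → Bool) :
    gmu.real (win r m ⁻¹' {w}) = gmu.real {x | ∀ j : ℕ, j ≤ m → x j = ext w j} := by
  rw [win_preimage, gmu_cyl_shift]

lemma card_words (r m : ℕ) :
    (Fintype.card {w : Fin (m + 1) → Bool // gmu.real (win r m ⁻¹' {w}) ≠ 0} : ℝ) * gδ ≤
      gm ^ (m + 1) := by
  classical
  have h1 : ∑ w, gmu.real (win r m ⁻¹' {w}) = 1 := sum_measureReal_preimage gmu (win_meas r m)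
  have hg : (0 : ℝ) ≤ gm ^ (m + 1) := pow_nonneg (by linarith [gm_gt]) _
  calc (Fintype.card {w : Fin (m + 1) → Bool // gmu.real (win r m ⁻¹' {w}) ≠ 0} : ℝ) * gδ
      = ∑ w : {w : Fin (m + 1) → Bool // gmu.real (win r m ⁻¹' {w}) ≠ 0}, gδ := by
        rw [Finset.sum_const, nsmul_eq_mul, Finset.card_univ]
    _ ≤ ∑ w : {w : Fin (m + 1) → Bool // gmu.real (win r m ⁻¹' {w}) ≠ 0},
          gmu.real (win r m ⁻¹' {w.1}) * gm ^ (m + 1) := by
        refine Finset.sum_le_sum fun w _ => ?_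
        have h2 := w.2
        rw [win_measure] at h2 ⊢
        exact gmu_lower' m _ h2
    _ = (∑ w : {w : Fin (m + 1) → Bool // gmu.real (win r m ⁻¹' {w}) ≠ 0},
          gmu.real (win r m ⁻¹' {w.1})) * gm ^ (m + 1) := by rw [Finset.sum_mul]
    _ ≤ 1 * gm ^ (m + 1) := by
        refine mul_le_mul_of_nonneg_right ?_ hg
        rw [← h1, ← Finset.sum_subtype (Finset.univ.filter
          fun w => gmu.real (win r m ⁻¹' {w}) ≠ 0) (by simp)
          (fun w => gmu.real (win r m ⁻¹' {w}))]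
        exact Finset.sum_le_univ_sum_of_nonneg fun _ => measureReal_nonneg
    _ = _ := one_mul _

lemma exists_agree {U : Set ((ℤ → Bool) × (ℤ → Bool))} (hU : IsOpen U)
    (hd : ∀ x, (x, x) ∈ U) : ∃ r : ℕ, ∀ x y : ℤ → Bool,
      (∀ i : ℤ, |i| ≤ (r : ℤ) → x i = y i) → (x, y) ∈ U := by
  have hcl : ∀ r : ℕ, IsClosed {p : (ℤ → Bool) × (ℤ → Bool) |
      ∀ i : ℤ, |i| ≤ (r : ℤ) → p.1 i = p.2 i} := by
    intro r
    have : {p : (ℤ → Bool) × (ℤ → Bool) | ∀ i : ℤ, |i| ≤ (r : ℤ) → p.1 i = p.2 i} =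
        ⋂ i : ℤ, ⋂ _ : |i| ≤ (r : ℤ), {p | p.1 i = p.2 i} := by
      ext p; simp
    rw [this]
    refine isClosed_iInter fun i => isClosed_iInter fun _ => isClosed_eq ?_ ?_
    · exact (continuous_apply i).comp continuous_fst
    · exact (continuous_apply i).comp continuous_snd
  obtain ⟨r, hr⟩ := exists_subset_nhds_of_isCompact'
    (V := fun r : ℕ => {p : (ℤ → Bool) × (ℤ → Bool) | ∀ i : ℤ, |i| ≤ (r : ℤ) → p.1 i = p.2 i})
    (by
      intro a b
      refine ⟨max a b, ?_, ?_⟩
      · intro p hp i hi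
        exact hp i (hi.trans (by exact_mod_cast le_max_left a b))
      · intro p hp i hi
        exact hp i (hi.trans (by exact_mod_cast le_max_right a b)))
    (fun r => (hcl r).isCompact) hcl (U := U) (by
      rintro ⟨x, y⟩ hxy
      have : x = y := by
        funext i
        have := Set.mem_iInter.1 hxy i.natAbs
        exact this i (by simp)
      subst this
      exact hU.mem_nhds (hd x))
  exact ⟨r, fun x y h => hr (a := (x, y)) h⟩

/-- words of positive measure -/
def goodSet : Set (ℤ → Bool) :=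
  {x | ∀ r m : ℕ, gmu.real (win r m ⁻¹' {win r m x}) ≠ 0}

lemma ae_goodSet : ∀ᵐ x ∂gmu, x ∈ goodSet := by
  have : ∀ r m : ℕ, ∀ᵐ x ∂gmu, gmu.real (win r m ⁻¹' {win r m x}) ≠ 0 := by
    intro r m
    rw [ae_iff]
    have e : {x | ¬ gmu.real (win r m ⁻¹' {win r m x}) ≠ 0} ⊆
        ⋃ w : {w : Fin (m + 1) → Bool // gmu.real (win r m ⁻¹' {w}) = 0}, win r m ⁻¹' {w.1} := by
      intro x hx
      simp only [ne_eq, not_not, Set.mem_ofPred_eq] at hx
      exact Set.mem_iUnion.2 ⟨⟨win r m x, hx⟩, rfl⟩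
    refine measure_mono_null e ?_
    rw [measure_iUnion_null_iff]
    rintro ⟨w, hw⟩
    rwa [measureReal_eq_zero_iff] at hw
  filter_upwards [ae_all_iff.2 fun r => ae_all_iff.2 fun m => this r m] with x hx
  exact hx

/-- The Kolmogorov-Sinai entropy of the golden mean chain is at most `log gm`. -/
theorem gmu_ks_le : ksEntropy gmu shift ≤ ((Real.log gm : ℝ) : EReal) := by
  classical
  let _ : MetricSpace (ℤ → Bool) := TopologicalSpace.metrizableSpaceMetric (ℤ → Bool)
  refine ksEntropy_le_log_of_cover gmu gmu_shift goodSet ae_goodSet gm gm_gt.le ?_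
  intro ε hε
  obtain ⟨r, hr⟩ := exists_agree (U := {p | dist p.1 p.2 < ε})
    (isOpen_lt (continuous_fst.dist continuous_snd) continuous_const) (by simp [hε])
  refine ⟨gm ^ (2 * r + 1) / gδ, div_pos (pow_pos (by linarith [gm_gt]) _) gδ_pos, fun n => ?_⟩
  refine ⟨{w : Fin (n + 2 * r + 1) → Bool // gmu.real (win r (n + 2 * r) ⁻¹' {w}) ≠ 0},
    inferInstance, fun w => win r (n + 2 * r) ⁻¹' {w.1}, ?_, ?_, ?_⟩
  · have := card_words r (n + 2 * r)
    rw [← le_div_iff₀ gδ_pos] at this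
    refine this.trans (le_of_eq ?_)
    rw [div_mul_eq_mul_div, ← pow_add]
    congr 2
    ring
  · intro x hx
    exact Set.mem_iUnion.2 ⟨⟨_, hx r (n + 2 * r)⟩, rfl⟩
  · rintro ⟨w, hw⟩ x hx y hy j hj
    refine hr _ _ fun i hi => ?_
    rw [shift_iter, shift_iter]
    have hxy : win r (n + 2 * r) x = win r (n + 2 * r) y := hx.trans hy.symm
    rw [abs_le] at hi
    have h1 := congrFun hxy ⟨(i + j + r).toNat, by omega⟩
    unfold win at h1
    have h2 : (((i + j + r).toNat : ℕ) : ℤ) - r = i + j := by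
      rw [Int.toNat_of_nonneg (by omega)]; ring
    simp only [h2] at h1
    exact h1

end Pool.Agent.W851.FC
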