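import Pool.Agent.W851.FC.Atomic

set_option autoImplicit false

open MeasureTheory Filter Topology ProbabilityTheory
open scoped ENNReal
open Pool.Agent.Helper179.KS

namespace Pool.Agent.W851.FC

lemma gmu_cyl_fwd (k m : ℕ) (w : ℕ → Bool) :
    gmu.real {x | ∀ j : ℕ, j ≤ m → x ((j : ℤ) + k) = w j} =
      gmu.real {x | ∀ j : ℕ, j ≤ m → x j = w j} := by
  have h := (gmu_shift.iterate k).measureReal_preimage (meas_cyl m w).nullMeasurableSet
  rw [← h]
  congr 1
  ext x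
  simp only [Set.mem_preimage, Set.mem_ofPred_eq, shift_iter]

section
variable {A : Type} [MeasurableSpace A] (ν : Measure A) [IsProbabilityMeasure ν]

/-- the good set -/
def Good (φ : (ℤ → A) → (ℤ → Bool)) (G : Set (ℤ → A)) : Set (ℤ → A) :=
  {y | (∀ i : ℕ, shift^[i] y ∈ G) ∧ (∀ i : ℕ, φ (shift^[i] y) = shift^[i] (φ y)) ∧
    ∀ i : ℕ, 0 < ν.real {y i}}

lemma ae_Good {φ : (ℤ → A) → (ℤ → Bool)} {G : Set (ℤ → A)} (hG : ∀ᵐ y ∂(iid ν), y ∈ G)
    (hc : ∀ᵐ y ∂(iid ν), φ (shift y) = shift (φ y)) (hpos : ∀ᵐ a ∂ν, 0 < ν.real {a}) :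
    ∀ᵐ y ∂(iid ν), y ∈ Good ν φ G := by
  have h1 : ∀ᵐ y ∂(iid ν), ∀ i : ℕ, shift^[i] y ∈ G :=
    ae_all_iff.2 fun i => ((iid_shift ν).iterate i).quasiMeasurePreserving.ae hG
  have h2 : ∀ᵐ y ∂(iid ν), ∀ i : ℕ, φ (shift (shift^[i] y)) = shift (φ (shift^[i] y)) :=
    ae_all_iff.2 fun i => ((iid_shift ν).iterate i).quasiMeasurePreserving.ae hc
  have h3 : ∀ᵐ y ∂(iid ν), ∀ i : ℕ, 0 < ν.real {y i} :=
    ae_all_iff.2 fun i =>
      (measurePreserving_eval_infinitePi (fun _ : ℤ => ν) (i : ℤ)).quasiMeasurePreserving.ae hpos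
  filter_upwards [h1, h2, h3] with y hy1 hy2 hy3
  refine ⟨hy1, fun i => ?_, hy3⟩
  induction i with
  | zero => rfl
  | succ i ih => rw [Function.iterate_succ_apply', hy2 i, ih, Function.iterate_succ_apply']

/-- the coding windows of the coordinates in `[k, N - k)` lie inside `[0, N)` -/
def BB (R : (ℤ → A) → ℕ) (N k : ℕ) : Set (ℤ → A) :=
  {y | ∀ i : ℕ, k ≤ i → i + k < N → R (shift^[i] y) ≤ i ∧ R (shift^[i] y) + i + 1 ≤ N}

lemma prod_bound [MeasurableSingletonClass A] {φ : (ℤ → A) → (ℤ → Bool)}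
    (hφ : IsFactorMap ν gmu φ) {R : (ℤ → A) → ℕ} {G : Set (ℤ → A)}
    (hR : ∀ y ∈ G, ∀ y' ∈ G, (∀ i : ℤ, |i| ≤ (R y : ℤ) → y' i = y i) → φ y' 0 = φ y 0)
    (hG : ∀ᵐ y ∂(iid ν), y ∈ Good ν φ G) (N k : ℕ) {y : ℤ → A} (hy : y ∈ Good ν φ G)
    (hB : y ∈ BB R N k) :
    (∏ i ∈ Finset.range N, ν.real {y i}) * gm ^ N ≤ gm ^ 2 * gm ^ (2 * k) := by
  have hg1 : 1 ≤ gm := gm_gt.le
  have hg0 : (0 : ℝ) < gm := by linarith
  have hp1 : ∏ i ∈ Finset.range N, ν.real {y i} ≤ 1 :=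
    Finset.prod_le_one (fun _ _ => measureReal_nonneg) fun _ _ => measureReal_le_one
  have hp0 : 0 ≤ ∏ i ∈ Finset.range N, ν.real {y i} :=
    Finset.prod_nonneg fun _ _ => measureReal_nonneg
  rcases le_or_gt N (2 * k) with hN | hN
  · calc (∏ i ∈ Finset.range N, ν.real {y i}) * gm ^ N ≤ 1 * gm ^ N :=
          mul_le_mul_of_nonneg_right hp1 (by positivity)
      _ ≤ 1 * gm ^ (2 * k) := mul_le_mul_of_nonneg_left (pow_le_pow_right₀ hg1 hN) (by norm_num)
      _ ≤ gm ^ 2 * gm ^ (2 * k) :=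
          mul_le_mul_of_nonneg_right (one_le_pow₀ hg1) (by positivity)
  obtain ⟨m, hm⟩ : ∃ m, N = 2 * k + (m + 1) := ⟨N - 2 * k - 1, by omega⟩
  -- the cylinder
  have hD : (iid ν).real {y' : ℤ → A | ∀ j : ℕ, j < N → y' j = y j} =
      ∏ i ∈ Finset.range N, ν.real {y i} := by
    have e : {y' : ℤ → A | ∀ j : ℕ, j < N → y' j = y j} =
        Set.pi ((Finset.range N).image (fun j : ℕ => (j : ℤ))) (fun i => {y i}) := by
      ext y'
      simp [Set.mem_pi]
    rw [e, Measure.real]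
    change ((Measure.infinitePi (fun _ : ℤ => ν)) _).toReal = _
    rw [Measure.infinitePi_pi _ (fun _ _ => measurableSet_singleton _), Finset.prod_image
      (by intro a _ b _ hab; simpa using hab), ENNReal.toReal_prod]
    rfl
  set E : Set (ℤ → Bool) := {x | ∀ j : ℕ, j ≤ m → x ((j : ℤ) + k) = φ y ((j : ℤ) + k)} with hE
  have hEm : MeasurableSet E := by
    have : E = ⋂ j : ℕ, ⋂ _ : j ≤ m, (fun x : ℤ → Bool => x ((j : ℤ) + k)) ⁻¹'
        {φ y ((j : ℤ) + k)} := by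
      ext x; simp [hE]
    rw [this]
    exact MeasurableSet.iInter fun j => MeasurableSet.iInter fun _ =>
      measurable_pi_apply _ (measurableSet_singleton _)
  have hle : (iid ν).real {y' : ℤ → A | ∀ j : ℕ, j < N → y' j = y j} ≤ gmu.real E := by
    have h1 : gmu.real E = (iid ν).real (φ ⁻¹' E) := by
      rw [← hφ.law, map_measureReal_apply hφ.meas hEm]
    rw [h1, Measure.real, Measure.real]
    refine ENNReal.toReal_mono (measure_ne_top _ _) (measure_mono_ae ?_)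
    filter_upwards [hG] with y' hy' hy'D
    intro j hj
    have hi := hB (j + k) (by omega) (by omega)
    have h2 := hR _ (hy.1 (j + k)) _ (hy'.1 (j + k)) (by
      intro l hl
      rw [shift_iter, shift_iter]
      rw [abs_le] at hl
      have h3 : (0 : ℤ) ≤ l + (j + k : ℕ) := by omega
      obtain ⟨q, hq⟩ := Int.eq_ofNat_of_zero_le h3
      rw [hq]
      exact hy'D q (by omega))
    rw [hy'.2.1, hy.2.1, shift_iter, shift_iter] at h2
    simpa using h2
  have h4 : gmu.real E * gm ^ (m + 1) ≤ gm ^ 2 := by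
    rw [hE, gmu_cyl_fwd k m (fun j => φ y ((j : ℤ) + k))]
    exact gmu_upper' m _
  rw [← hD]
  calc (iid ν).real {y' : ℤ → A | ∀ j : ℕ, j < N → y' j = y j} * gm ^ N
      ≤ gmu.real E * gm ^ N := mul_le_mul_of_nonneg_right hle (by positivity)
    _ = (gmu.real E * gm ^ (m + 1)) * gm ^ (2 * k) := by rw [hm, pow_add]; ring
    _ ≤ _ := mul_le_mul_of_nonneg_right h4 (by positivity)

lemma BB_compl (R : (ℤ → A) → ℕ) {C s : ℝ} (hC : 0 ≤ C) (hs0 : 0 ≤ s) (hs1 : s < 1)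
    (hT : ∀ r : ℕ, (iid ν) {y | r < R y} ≤ ENNReal.ofReal (C * s ^ r)) (N k : ℕ) :
    (iid ν) (BB R N k)ᶜ ≤ ENNReal.ofReal (2 * C / (1 - s) * s ^ k) := by
  have hshift : ∀ (i r : ℕ), (iid ν) {y | r < R (shift^[i] y)} ≤ ENNReal.ofReal (C * s ^ r) := by
    intro i r
    have h1 := Measure.le_map_apply (μ := iid ν)
      ((iid_shift ν).iterate i).measurable.aemeasurable {y | r < R y}
    rw [((iid_shift ν).iterate i).map_eq] at h1
    exact h1.trans (hT r)
  rcases le_or_gt N (2 * k) with hN | hN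
  · have : (BB R N k)ᶜ = ∅ := by
      rw [Set.compl_empty_iff, Set.eq_univ_iff_forall]
      intro y i h1 h2
      omega
    rw [this, measure_empty]
    exact zero_le
  have hsub : (BB R N k)ᶜ ⊆ ⋃ i ∈ Finset.Ico k (N - k),
      ({y | i < R (shift^[i] y)} ∪ {y | N - 1 - i < R (shift^[i] y)}) := by
    intro y hy
    simp only [BB, Set.mem_compl_iff, Set.mem_ofPred_eq, not_forall] at hy
    obtain ⟨i, h1, h2, h3⟩ := hy
    simp only [Set.mem_iUnion, Finset.mem_Ico]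
    refine ⟨i, ⟨h1, by omega⟩, ?_⟩
    by_cases h4 : i < R (shift^[i] y)
    · exact Or.inl h4
    · refine Or.inr ?_
      simp only [Set.mem_ofPred_eq]
      by_contra h5
      exact h3 ⟨by omega, by omega⟩
  have hgeom : ∀ a b : ℕ, ∑ i ∈ Finset.Ico a b, C * s ^ i ≤ C / (1 - s) * s ^ a := by
    intro a b
    have hs : Summable fun i : ℕ => C * s ^ (a + i) := by
      simp_rw [pow_add, ← mul_assoc]
      exact (summable_geometric_of_lt_one hs0 hs1).mul_left _
    rw [Finset.sum_Ico_eq_sum_range]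
    refine (hs.sum_le_tsum _ fun i _ => by positivity).trans (le_of_eq ?_)
    simp_rw [pow_add, ← mul_assoc]
    rw [tsum_mul_left, tsum_geometric_of_lt_one hs0 hs1]
    ring
  calc (iid ν) (BB R N k)ᶜ ≤ (iid ν) (⋃ i ∈ Finset.Ico k (N - k),
      ({y | i < R (shift^[i] y)} ∪ {y | N - 1 - i < R (shift^[i] y)})) := measure_mono hsub
    _ ≤ ∑ i ∈ Finset.Ico k (N - k),
        (iid ν) ({y | i < R (shift^[i] y)} ∪ {y | N - 1 - i < R (shift^[i] y)}) :=
        measure_biUnion_finset_le _ _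
    _ ≤ ∑ i ∈ Finset.Ico k (N - k),
        (ENNReal.ofReal (C * s ^ i) + ENNReal.ofReal (C * s ^ (N - 1 - i))) :=
        Finset.sum_le_sum fun i _ => (measure_union_le _ _).trans
          (add_le_add (hshift i i) (hshift i (N - 1 - i)))
    _ = ENNReal.ofReal (∑ i ∈ Finset.Ico k (N - k), C * s ^ i) +
        ENNReal.ofReal (∑ i ∈ Finset.Ico k (N - k), C * s ^ (N - 1 - i)) := by
        rw [Finset.sum_add_distrib, ENNReal.ofReal_sum_of_nonneg (fun _ _ => by positivity),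
          ENNReal.ofReal_sum_of_nonneg (fun _ _ => by positivity)]
    _ ≤ ENNReal.ofReal (C / (1 - s) * s ^ k) + ENNReal.ofReal (C / (1 - s) * s ^ k) := by
        refine add_le_add (ENNReal.ofReal_le_ofReal (hgeom _ _)) (ENNReal.ofReal_le_ofReal ?_)
        rw [Finset.sum_Ico_reflect (fun i => C * s ^ i) k (by omega : N - k ≤ N - 1 + 1)]
        have e : N - 1 + 1 - (N - k) = k := by omega
        rw [e]
        exact hgeom _ _
    _ = _ := by
        have : 0 ≤ C / (1 - s) * s ^ k :=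
          mul_nonneg (div_nonneg hC (by linarith)) (pow_nonneg hs0 _)
        rw [← ENNReal.ofReal_add this this]
        congr 1
        ring

/-- the product variable -/
noncomputable def ZZ (θ : ℝ) (N : ℕ) (y : ℤ → A) : ℝ≥0∞ :=
  ∏ i ∈ Finset.range N, ENNReal.ofReal ((ν.real {y i} * gm) ^ θ)

lemma lint_ZZ (hm : Measurable fun a => ν.real {a}) (θ : ℝ) (N : ℕ) :
    ∫⁻ y, ZZ ν θ N y ∂(iid ν) = (∫⁻ a, ENNReal.ofReal ((ν.real {a} * gm) ^ θ) ∂ν) ^ N := by
  have hF : Measurable fun a => ENNReal.ofReal ((ν.real {a} * gm) ^ θ) :=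
    ((hm.mul_const _).pow_const _).ennreal_ofReal
  have h1 : iIndepFun (fun (j : ℤ) (y : ℤ → A) => ENNReal.ofReal ((ν.real {y j} * gm) ^ θ))
      (iid ν) :=
    iIndepFun_infinitePi (P := fun _ : ℤ => ν)
      (X := fun _ a => ENNReal.ofReal ((ν.real {a} * gm) ^ θ)) (fun _ => hF)
  have h2 := lintegral_prod_eq_prod_lintegral_of_indepFun
    ((Finset.range N).image (fun j : ℕ => (j : ℤ))) _ h1
    (fun j => hF.comp (measurable_pi_apply j))
  rw [Finset.prod_image (by intro a _ b _ hab; simpa using hab)] at h2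
  have h3 : ∫⁻ y, ZZ ν θ N y ∂(iid ν) = ∫⁻ y, ∏ i ∈ (Finset.range N).image (fun j : ℕ => (j : ℤ)),
      ENNReal.ofReal ((ν.real {y i} * gm) ^ θ) ∂(iid ν) := by
    refine lintegral_congr fun y => ?_
    rw [Finset.prod_image (by intro a _ b _ hab; simpa using hab)]
    rfl
  rw [h3, h2]
  have h4 : ∀ j : ℤ, ∫⁻ y, ENNReal.ofReal ((ν.real {y j} * gm) ^ θ) ∂(iid ν) =
      ∫⁻ a, ENNReal.ofReal ((ν.real {a} * gm) ^ θ) ∂ν := fun j =>
    (measurePreserving_eval_infinitePi (fun _ : ℤ => ν) j).lintegral_comp hF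
  simp only [h4, Finset.prod_const, Finset.card_range]

end

end Pool.Agent.W851.FC
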